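import Pool.Agent.Helper11.EA3.Defs3
import Pool.Agent.Helper11.EA.Iter

/-!
# Project EA, part 3, block V8: iteration of `step_k`
-/

set_option autoImplicit false

namespace Pool.Agent.Helper51.EA

open Finset Pool.Agent.Helper5.RM Pool.Agent.Helper5.RS Pool.Agent.Helper11.RL

/-- V8'. The weights. -/
theorem wt2_le (P : ℕ → Finset ℕ) (t t' : ℕ → ℕ → ℕ → Finset ℕ → ℝ) (s τ : ℝ) (ℓ : ℕ → ℝ) (I : Finset ℕ) (nr : ℕ → ℕ → Prop) (K : ℕ)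
    (hτ0 : 0 < τ) (hτ1 : τ ≤ 1 / 2) (hτℓ : ∀ b < K, τ * (ℓ b + 1) ≤ 1) (T : Finset ℕ)
    (hG : ∀ b < K, Gd2 P t t' τ ℓ I nr b T) : ∀ j ∈ I, 0 ≤ wt2 P t t' s ℓ j T K ∧
      wt2 P t t' s ℓ j T K ≤ Real.exp (∑ b ∈ range K, (ℓ b / 2 + s + 2)) ∧
      (0 < wt2 P t t' s ℓ j T K → ∀ b < K, |∑ p ∈ P b, sg T p * t b j p T - ℓ b| ≤ s ∧
        |∑ p ∈ P b, sg T p * t' b j p T| ≤ s) := by
  induction K with
  | zero =>
    intro j _
    simp [wt2]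
  | succ K ih =>
    intro j hj
    obtain ⟨i1, i2, i3⟩ := ih (fun b hb => hτℓ b (by omega)) (fun b hb => hG b (by omega)) j hj
    rw [wt2, Finset.sum_range_succ, Real.exp_add]
    split_ifs with h
    · have h1 := (hG K (by omega)).1 j hj
      obtain ⟨f1, f2⟩ := wfac (P K) (fun p => t K j p T) T τ (ℓ K) s hτ0 hτ1 (hτℓ K (by omega))
        (fun p hp => (h1.1 p hp).1) h1.2.1 h.1
      refine ⟨mul_nonneg i1 f1.le, mul_le_mul i2 f2 f1.le (Real.exp_pos _).le, fun hp b hb => ?_⟩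
      rcases Nat.lt_succ_iff_lt_or_eq.1 hb with h2 | h2
      · exact i3 (pos_of_mul_pos_left hp f1.le) b h2
      · rw [h2]; exact h
    · exact ⟨le_rfl, by positivity, fun hp => absurd hp (lt_irrefl 0)⟩

/-- V8 from V7. -/
theorem iterate_k_of
    (step_k : ∀ (k : ℕ) (_ : 1 ≤ k) (S : Finset ℕ) (t t' : ℕ → ℕ → ℝ) (I : Finset ℕ) (w : ℕ → ℝ) (nr : ℕ → ℕ → Prop) (M : ℝ)
      (τ ℓ s ϑ Wm : ℝ) (_ : ∀ j ∈ I, 0 ≤ w j) (_ : ∀ j ∈ I, w j ≤ Wm) (_ : 0 < ∑ j ∈ I, w j)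
      (_ : ∀ j ∈ I, ∀ Q ⊆ I, (∀ i ∈ Q, nr j i) → (Q.card : ℝ) ≤ M)
      (_ : 0 < τ) (_ : k * τ * (ℓ + 1) ≤ 1 / 1000) (_ : 0 ≤ ℓ)
      (_ : ∀ j ∈ I, ∀ p ∈ S, |t j p| ≤ τ ∧ |t' j p| ≤ τ)
      (_ : ∀ j ∈ I, |∑ p ∈ S, t j p ^ 2 - ℓ| ≤ τ ∧ |∑ p ∈ S, t' j p ^ 2 - ℓ| ≤ τ ∧ |∑ p ∈ S, t j p * t' j p| ≤ τ)
      (_ : ∀ j ∈ I, ∀ i ∈ I, ¬ nr j i → |∑ p ∈ S, t j p * t i p| ≤ τ ∧ |∑ p ∈ S, t j p * t' i p| ≤ τ ∧
        |∑ p ∈ S, t' j p * t i p| ≤ τ ∧ |∑ p ∈ S, t' j p * t' i p| ≤ τ)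
      (_ : 0 < ϑ) (_ : ϑ ≤ 1) (_ : ϑ ^ 2 * ℓ / 2 + 6 ≤ ϑ * s),
      pr S (fun T => ∑ j ∈ I, (if |∑ p ∈ S, sg T p * t j p - ℓ| ≤ s ∧ |∑ p ∈ S, sg T p * t' j p| ≤ s then
          w j * ∏ p ∈ S, (1 + sg T p * t j p) else 0) < (1 / 4) * ∑ j ∈ I, w j) ≤
        5 * (4 * (20 * k * τ + M * Wm * Real.exp (10 * k * (ℓ + 1)) / ∑ j ∈ I, w j)) ^ k)
    (k : ℕ) (hk : 1 ≤ k) (S : Finset ℕ) (P : ℕ → Finset ℕ) (t t' : ℕ → ℕ → ℕ → Finset ℕ → ℝ) (K : ℕ)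
    (I : Finset ℕ) (hIn : I.Nonempty) (nr : ℕ → ℕ → Prop) (M : ℝ) (s τ ϑ : ℝ) (ℓ : ℕ → ℝ)
    (hM : ∀ j ∈ I, ∀ Q ⊆ I, (∀ i ∈ Q, nr j i) → (Q.card : ℝ) ≤ M) (hM0 : 0 ≤ M)
    (hPS : ∀ b < K, P b ⊆ S) (hdis : ∀ b < K, ∀ b' < K, b ≠ b' → Disjoint (P b) (P b'))
    (hpr : ∀ b < K, ∀ p ∈ P b, ∀ j, ∀ b' < K, b ≤ b' → ∀ T, t b j p T = t b j p (T \ P b') ∧ t' b j p T = t' b j p (T \ P b'))
    (hτ0 : 0 < τ) (hτ1 : ∀ b < K, k * τ * (ℓ b + 1) ≤ 1 / 1000) (hℓ : ∀ b < K, 0 ≤ ℓ b)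
    (hϑ0 : 0 < ϑ) (hϑ1 : ϑ ≤ 1) (hs : ∀ b < K, ϑ ^ 2 * ℓ b / 2 + 6 ≤ ϑ * s) :
    pr S (fun T => (∀ b < K, Gd2 P t t' τ ℓ I nr b T) ∧ ∑ j ∈ I, wt2 P t t' s ℓ j T K < (1 / 4) ^ K * I.card) ≤
      ∑ b ∈ range K, 5 * (4 * (20 * k * τ + M * Real.exp (∑ b' ∈ range b, (ℓ b' / 2 + s + 2)) *
        Real.exp (10 * k * (ℓ b + 1)) / ((1 / 4) ^ b * I.card))) ^ k := by
  classical
  have hIc : (0 : ℝ) < I.card := by exact_mod_cast hIn.card_pos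
  have hk1 : (1 : ℝ) ≤ k := by exact_mod_cast hk
  have hτℓ : ∀ b < K, τ * (ℓ b + 1) ≤ 1 / 1000 := by
    intro b hb
    have h1 := hτ1 b hb
    have h2 := hℓ b hb
    have h3 : 0 ≤ τ * (ℓ b + 1) := by positivity
    nlinarith
  have hτh : ∀ b < K, τ ≤ 1 / 2 := by
    intro b hb
    have h1 := hτℓ b hb
    have h2 := hℓ b hb
    nlinarith
  set W : Finset ℕ → ℕ → ℝ := fun T b => ∑ j ∈ I, wt2 P t t' s ℓ j T b with hWdef
  set E : ℕ → Finset ℕ → Prop := fun b T => (∀ b' < b + 1, Gd2 P t t' τ ℓ I nr b' T) ∧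
    (1 / 4) ^ b * (I.card : ℝ) ≤ W T b ∧ W T (b + 1) < (1 / 4) * W T b with hEdef
  have hstep : ∀ T ⊆ S, ((∀ b < K, Gd2 P t t' τ ℓ I nr b T) ∧
      ∑ j ∈ I, wt2 P t t' s ℓ j T K < (1 / 4) ^ K * I.card) → ∃ b ∈ range K, E b T := by
    rintro T - ⟨hG, hlt⟩
    have hex : ∃ n, W T n < (1 / 4) ^ n * I.card := ⟨K, hlt⟩
    have hn0 : Nat.find hex ≠ 0 := by
      intro h0
      have h1 := Nat.find_spec hex
      rw [h0] at h1
      simp [hWdef, wt2] at h1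
    obtain ⟨b, hb⟩ := Nat.exists_eq_succ_of_ne_zero hn0
    have hbK : b < K := by
      have := Nat.find_min' hex hlt
      omega
    have h2 := Nat.find_spec hex
    have h3 : ¬ W T b < (1 / 4) ^ b * I.card := Nat.find_min hex (by omega)
    push Not at h3
    refine ⟨b, mem_range.2 hbK, fun b' hb' => hG b' (by omega), h3, ?_⟩
    rw [hb] at h2
    refine h2.trans_le ?_
    rw [Nat.succ_eq_add_one, pow_succ]
    nlinarith
  refine (pr_mono hstep).trans ((pr_exists S (range K) E).trans (Finset.sum_le_sum fun b hb => ?_))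
  have hbK : b < K := mem_range.1 hb
  have hS : (S \ P b) ∪ P b = S := Finset.sdiff_union_of_subset (hPS b hbK)
  rw [← hS]
  refine pr_split_le Finset.sdiff_disjoint _ _ fun T0 hT0 => ?_
  have herr0 : (0 : ℝ) ≤ 20 * k * τ + M * Real.exp (∑ b' ∈ range b, (ℓ b' / 2 + s + 2)) *
        Real.exp (10 * k * (ℓ b + 1)) / ((1 / 4) ^ b * I.card) := by positivity
  have herr : (0 : ℝ) ≤ 5 * (4 * (20 * k * τ + M * Real.exp (∑ b' ∈ range b, (ℓ b' / 2 + s + 2)) *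
        Real.exp (10 * k * (ℓ b + 1)) / ((1 / 4) ^ b * I.card))) ^ k := by positivity
  have hT0d : ∀ q ∈ P b, q ∉ T0 := fun q hq h => (Finset.mem_sdiff.1 (hT0 h)).2 hq
  -- the union is `T0` outside the block
  have hsd : ∀ T1 ⊆ P b, (T0 ∪ T1) \ P b = T0 := by
    intro T1 hT1
    ext q
    simp only [Finset.mem_sdiff, Finset.mem_union]
    constructor
    · rintro ⟨h | h, h2⟩
      · exact h
      · exact absurd (hT1 h) h2
    · exact fun h => ⟨Or.inl h, fun h2 => hT0d q h2 h⟩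
  have hacong : ∀ T1 ⊆ P b, ∀ b' ≤ b, ∀ p ∈ P b', ∀ j, t b' j p (T0 ∪ T1) = t b' j p T0 ∧
      t' b' j p (T0 ∪ T1) = t' b' j p T0 := by
    intro T1 hT1 b' hb' p hp j
    have h1 := hpr b' (by omega) p hp j b hbK hb' (T0 ∪ T1)
    rw [hsd T1 hT1] at h1
    exact h1
  have hsg0 : ∀ T1 ⊆ P b, ∀ b' < b, ∀ p ∈ P b', sg (T0 ∪ T1) p = sg T0 p := by
    intro T1 hT1 b' hb' p hp
    have h1 : p ∉ T1 := fun h =>
      Finset.disjoint_left.1 (hdis b' (by omega) b hbK (by omega)) hp (hT1 h)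
    simp only [sg, Finset.mem_union, h1, or_false]
  have hsg1 : ∀ T1 ⊆ P b, ∀ p ∈ P b, sg (T0 ∪ T1) p = sg T1 p := by
    intro T1 hT1 p hp
    simp only [sg, Finset.mem_union, hT0d p hp, false_or]
  have hwcong : ∀ T1 ⊆ P b, ∀ b' ≤ b, ∀ j, wt2 P t t' s ℓ j (T0 ∪ T1) b' = wt2 P t t' s ℓ j T0 b' := by
    intro T1 hT1 b'
    induction b' with
    | zero => intro _ j; rfl
    | succ b' ih =>
      intro hb' j
      have e1 : ∑ p ∈ P b', sg (T0 ∪ T1) p * t b' j p (T0 ∪ T1) = ∑ p ∈ P b', sg T0 p * t b' j p T0 :=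
        Finset.sum_congr rfl fun p hp => by
          rw [hsg0 T1 hT1 b' (by omega) p hp, (hacong T1 hT1 b' (by omega) p hp j).1]
      have e3 : ∑ p ∈ P b', sg (T0 ∪ T1) p * t' b' j p (T0 ∪ T1) = ∑ p ∈ P b', sg T0 p * t' b' j p T0 :=
        Finset.sum_congr rfl fun p hp => by
          rw [hsg0 T1 hT1 b' (by omega) p hp, (hacong T1 hT1 b' (by omega) p hp j).2]
      have e2 : ∏ p ∈ P b', (1 + sg (T0 ∪ T1) p * t b' j p (T0 ∪ T1)) =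
          ∏ p ∈ P b', (1 + sg T0 p * t b' j p T0) :=
        Finset.prod_congr rfl fun p hp => by
          rw [hsg0 T1 hT1 b' (by omega) p hp, (hacong T1 hT1 b' (by omega) p hp j).1]
      rw [wt2, wt2, e1, e2, e3, ih (by omega) j]
  have hGcong : ∀ T1 ⊆ P b, ∀ b' ≤ b, Gd2 P t t' τ ℓ I nr b' (T0 ∪ T1) → Gd2 P t t' τ ℓ I nr b' T0 := by
    intro T1 hT1 b' hb' h
    have hc := fun p hp j => (hacong T1 hT1 b' hb' p hp j).1
    have hc' := fun p hp j => (hacong T1 hT1 b' hb' p hp j).2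
    refine ⟨fun j hj => ?_, fun j hj i hi hn => ?_⟩
    · have h1 := h.1 j hj
      refine ⟨fun p hp => ?_, ?_⟩
      · rw [← hc p hp, ← hc' p hp]; exact h1.1 p hp
      · have e1 : ∑ p ∈ P b', t b' j p T0 ^ 2 = ∑ p ∈ P b', t b' j p (T0 ∪ T1) ^ 2 :=
          Finset.sum_congr rfl fun p hp => by rw [hc p hp]
        have e2 : ∑ p ∈ P b', t' b' j p T0 ^ 2 = ∑ p ∈ P b', t' b' j p (T0 ∪ T1) ^ 2 :=
          Finset.sum_congr rfl fun p hp => by rw [hc' p hp]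
        have e3 : ∑ p ∈ P b', t b' j p T0 * t' b' j p T0 =
            ∑ p ∈ P b', t b' j p (T0 ∪ T1) * t' b' j p (T0 ∪ T1) :=
          Finset.sum_congr rfl fun p hp => by rw [hc p hp, hc' p hp]
        rw [e1, e2, e3]; exact h1.2
    · have h1 := h.2 j hj i hi hn
      have e1 : ∑ p ∈ P b', t b' j p T0 * t b' i p T0 =
          ∑ p ∈ P b', t b' j p (T0 ∪ T1) * t b' i p (T0 ∪ T1) :=
        Finset.sum_congr rfl fun p hp => by rw [hc p hp, hc p hp]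
      have e2 : ∑ p ∈ P b', t b' j p T0 * t' b' i p T0 =
          ∑ p ∈ P b', t b' j p (T0 ∪ T1) * t' b' i p (T0 ∪ T1) :=
        Finset.sum_congr rfl fun p hp => by rw [hc p hp, hc' p hp]
      have e3 : ∑ p ∈ P b', t' b' j p T0 * t b' i p T0 =
          ∑ p ∈ P b', t' b' j p (T0 ∪ T1) * t b' i p (T0 ∪ T1) :=
        Finset.sum_congr rfl fun p hp => by rw [hc p hp, hc' p hp]
      have e4 : ∑ p ∈ P b', t' b' j p T0 * t' b' i p T0 =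
          ∑ p ∈ P b', t' b' j p (T0 ∪ T1) * t' b' i p (T0 ∪ T1) :=
        Finset.sum_congr rfl fun p hp => by rw [hc' p hp, hc' p hp]
      rw [e1, e2, e3, e4]; exact h1
  by_cases hc : (∀ b' < b + 1, Gd2 P t t' τ ℓ I nr b' T0) ∧ (1 / 4) ^ b * (I.card : ℝ) ≤ W T0 b
  · obtain ⟨hG, hW⟩ := hc
    have hW0 : 0 < ∑ j ∈ I, wt2 P t t' s ℓ j T0 b := lt_of_lt_of_le (by positivity) hW
    have hwl := wt2_le P t t' s τ ℓ I nr b hτ0 (hτh b hbK) (fun b' hb' => (hτℓ b' (by omega)).trans (by norm_num)) T0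
      (fun b' hb' => hG b' (by omega))
    have hGb := hG b (by omega)
    have hst := step_k k hk (P b) (fun j p => t b j p T0) (fun j p => t' b j p T0) I (fun j => wt2 P t t' s ℓ j T0 b)
      nr M τ (ℓ b) s ϑ (Real.exp (∑ b' ∈ range b, (ℓ b' / 2 + s + 2))) (fun j hj => (hwl j hj).1)
      (fun j hj => (hwl j hj).2.1) hW0 hM hτ0 (hτ1 b hbK) (hℓ b hbK) (fun j hj p hp => (hGb.1 j hj).1 p hp)
      (fun j hj => (hGb.1 j hj).2) (fun j hj i hi hn => hGb.2 j hj i hi hn) hϑ0 hϑ1 (hs b hbK)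
    refine le_trans (pr_mono fun T1 hT1 hE => ?_) (hst.trans ?_)
    · obtain ⟨-, -, hE3⟩ := hE
      have e1 : W (T0 ∪ T1) b = ∑ j ∈ I, wt2 P t t' s ℓ j T0 b :=
        Finset.sum_congr rfl fun j _ => hwcong T1 hT1 b le_rfl j
      have e2 : W (T0 ∪ T1) (b + 1) = ∑ j ∈ I, (if |∑ p ∈ P b, sg T1 p * t b j p T0 - ℓ b| ≤ s ∧
          |∑ p ∈ P b, sg T1 p * t' b j p T0| ≤ s then
          wt2 P t t' s ℓ j T0 b * ∏ p ∈ P b, (1 + sg T1 p * t b j p T0) else 0) := by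
        refine Finset.sum_congr rfl fun j _ => ?_
        have f1 : ∑ p ∈ P b, sg (T0 ∪ T1) p * t b j p (T0 ∪ T1) = ∑ p ∈ P b, sg T1 p * t b j p T0 :=
          Finset.sum_congr rfl fun p hp => by
            rw [hsg1 T1 hT1 p hp, (hacong T1 hT1 b le_rfl p hp j).1]
        have f3 : ∑ p ∈ P b, sg (T0 ∪ T1) p * t' b j p (T0 ∪ T1) = ∑ p ∈ P b, sg T1 p * t' b j p T0 :=
          Finset.sum_congr rfl fun p hp => by
            rw [hsg1 T1 hT1 p hp, (hacong T1 hT1 b le_rfl p hp j).2]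
        have f2 : ∏ p ∈ P b, (1 + sg (T0 ∪ T1) p * t b j p (T0 ∪ T1)) =
            ∏ p ∈ P b, (1 + sg T1 p * t b j p T0) :=
          Finset.prod_congr rfl fun p hp => by
            rw [hsg1 T1 hT1 p hp, (hacong T1 hT1 b le_rfl p hp j).1]
        rw [wt2, f1, f2, f3, hwcong T1 hT1 b le_rfl j]
      rw [e1, e2] at hE3
      exact hE3
    · have h5 : (0 : ℝ) < (1 / 4) ^ b * I.card := by positivity
      have h6 : (0 : ℝ) ≤ M * Real.exp (∑ b' ∈ range b, (ℓ b' / 2 + s + 2)) * Real.exp (10 * k * (ℓ b + 1)) := by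
        positivity
      have h7 := div_le_div_of_nonneg_left h6 h5 hW
      have h8 : (0 : ℝ) ≤ M * Real.exp (∑ b' ∈ range b, (ℓ b' / 2 + s + 2)) * Real.exp (10 * k * (ℓ b + 1)) /
          W T0 b := div_nonneg h6 (h5.le.trans hW)
      refine mul_le_mul_of_nonneg_left (pow_le_pow_left₀ ?_ ?_ k) (by norm_num)
      · have : (0 : ℝ) ≤ 20 * k * τ := by positivity
        have h9 : (0 : ℝ) ≤ 20 * k * τ + M * Real.exp (∑ b' ∈ range b, (ℓ b' / 2 + s + 2)) *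
            Real.exp (10 * k * (ℓ b + 1)) / W T0 b := by linarith
        exact mul_nonneg (by norm_num) h9
      · refine mul_le_mul_of_nonneg_left ?_ (by norm_num)
        linarith
  · rw [pr_false (P b) (P := fun T1 => E b (T0 ∪ T1))]
    · exact herr
    · intro T1 hT1 hE
      obtain ⟨hE1, hE2, -⟩ := hE
      apply hc
      refine ⟨fun b' hb' => hGcong T1 hT1 b' (by omega) (hE1 b' hb'), ?_⟩
      have e1 : W (T0 ∪ T1) b = W T0 b := Finset.sum_congr rfl fun j _ => hwcong T1 hT1 b le_rfl j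
      rw [← e1]; exact hE2

end Pool.Agent.Helper51.EA
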