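import Pool.Agent.Helper11.EA3.ArcE
import Pool.Agent.Helper85.EA.V4
import Pool.Agent.Helper16.EA3.V6
import Pool.Agent.Helper96.EA3.V7
import Pool.Agent.Helper5.EA3.IterK

/-!
# Project EA, part 3: `arc_N` from `fl_two` (V3)
-/

set_option autoImplicit false

namespace Pool.Agent.Helper51.EA

open Finset Pool.Agent.Helper5.RM Pool.Agent.Helper5.RS

/-- V8 -/
theorem iterate_k : IterKStmt := fun k hk S P t t' K I hIn nr M s τ ϑ ℓ hM hM0 hPS hdis hpr hτ0 hτ1 hℓ hϑ0 hϑ1 hs =>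
  iterate_k_of (fun k hk S t t' I w nr M τ ℓ s ϑ Wm hw0 hwm hW hM hτ0 hτ1 hℓ ht hv hf hϑ0 hϑ1 hs =>
    step_k k hk S t t' I w nr M τ ℓ s ϑ Wm hw0 hwm hW hM hτ0 hτ1 hℓ ht hv hf hϑ0 hϑ1 hs)
    k hk S P t t' K I hIn nr M s τ ϑ ℓ hM hM0 hPS hdis hpr hτ0 hτ1 hℓ hϑ0 hϑ1 hs

/-- V9 from V3 -/
theorem arc_N_of5
    (fl_two : ∃ C : ℝ, 1 ≤ C ∧ ∀ (N : ℕ) (θ θ' D : ℝ) (A0 B H : ℕ), D ≤ N → Far N θ D → Far N θ' D → Far2 N A0 θ θ' D →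
    128 * LL N ≤ B → B ≤ A0 → (A0 : ℝ) * B ≤ D → B ≤ H → B * A0 * H ≤ N → C * LL N ^ 8 ≤ Real.sqrt B →
    ∀ (k w : ℕ) (η : ℝ), 1 ≤ k → 0 < η → η ≤ 1 → (4 * (k : ℝ)) ^ (1 + η) ≤ w →
    ∀ (A P : Finset ℕ), (∀ p ∈ P, p.Prime ∧ H ≤ p ∧ p < 2 * H) → ∀ t : ℝ, 0 < t →
    pr (PP N) (fun T => t < ‖∑ p ∈ P, XG N A θ p T * XG N A θ' p T‖) ≤
      (1000 * (N : ℝ) ^ 2 * LL N ^ (2 * w + 5) * (C * LL N ^ 8 / Real.sqrt B) ^ (η / 2) / t ^ 2) ^ k)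
    (κ δ : ℝ) (z : ℂ) (hκ0 : 0 ≤ κ) (hδ : 0 < δ) (hz : ‖z‖ ^ 2 < 1 - κ) : ∃ (c : ℝ) (N0 : ℕ), 0 < c ∧ ∀ N : ℕ, N0 ≤ N →
    pr (PP N) (fun T => ∃ j0 : ℕ, j0 + mw N κ ≤ 4 * N ∧ (cw N (mw N κ) j0 (fun x => ‖SN N T x - z * (tg N : ℂ)‖ ≤ δ * tg N) : ℝ) <
      (N : ℝ) ^ (1 - κ - ‖z‖ ^ 2 - δ)) ≤ (N : ℝ) ^ (-c) :=
  arc_N_of (fun κ c u hκ hκ1 hc hc1 hu => pair_ok_of fl_two κ c u hκ hκ1 hc hc1 hu)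
    (fun N A0 hN D hD hDN j hj => near_count N A0 hN D hD hDN j hj) iterate_k κ δ z hκ0 hδ hz

end Pool.Agent.Helper51.EA
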