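import Pool.Agent.Helper5.EA.UpR
import Pool.Agent.Helper84.EA.ArcB
import Pool.Agent.Helper99.EA.V11
import Pool.Agent.Helper53.EA.V12
import Pool.Agent.Helper99.EA.V13
import Pool.Agent.Helper16.EA.T4

/-!
# Project EA, part 3: the law at every scale, assembled (from V9, `arc_N`)
-/

set_option autoImplicit false

namespace Pool.Agent.Helper51.EA

open Finset Pool.Agent.Helper5.RM Pool.Agent.Helper5.RS MeasureTheory ProbabilityTheory Filter Pool.Agent.Helper11.EA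

theorem every_scale5_of
    (arc_N : ∀ (κ δ : ℝ) (z : ℂ) (_ : 0 ≤ κ) (_ : 0 < δ) (_ : ‖z‖ ^ 2 < 1 - κ), ∃ (c : ℝ) (N0 : ℕ), 0 < c ∧ ∀ N : ℕ, N0 ≤ N →
      pr (PP N) (fun T => ∃ j0 : ℕ, j0 + mw N κ ≤ 4 * N ∧
        (cw N (mw N κ) j0 (fun x => ‖SN N T x - z * (tg N : ℂ)‖ ≤ δ * tg N) : ℝ) <
        (N : ℝ) ^ (1 - κ - ‖z‖ ^ 2 - δ)) ≤ (N : ℝ) ^ (-c))
    {Ω : Type*} [MeasurableSpace Ω] (μ : Measure Ω) [IsProbabilityMeasure μ]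
    (ε : Nat.Primes → Ω → ℝ) (hm : ∀ p, Measurable (ε p)) (hi : iIndepFun ε μ)
    (h2 : ∀ p, μ {ω | ε p ω = -1} = 1 / 2) (h1 : ∀ p, μ {ω | ε p ω = 1} = 1 / 2) :
    ∀ᵐ ω ∂μ, ∀ κ : ℝ, 0 ≤ κ → κ < 1 → ∀ O : Set ℂ, IsOpen O →
      ((∃ z ∈ O, ‖z‖ < Real.sqrt (1 - κ) * rd) → Tendsto (fun N : ℕ =>
        Real.log (⨅ a : ℝ, (volume {x : ℝ | a ≤ x ∧ x ≤ a + (N : ℝ) ^ (-κ) ∧
          nrm (fun N x => ∑ n ∈ Finset.Icc 1 N, (rs (ext ε) ω n : ℂ) * e (n * x)) N x ∈ O}).toReal) / Real.log N)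
        atTop (nhds (-κ - Real.pi ^ 2 / 6 * (Metric.infDist 0 O) ^ 2))) ∧
      (Real.sqrt (1 - κ) * rd < Metric.infDist 0 O → ∀ᶠ N : ℕ in atTop, ∃ a : ℝ, ∀ x : ℝ, a ≤ x → x ≤ a + (N : ℝ) ^ (-κ) →
        nrm (fun N x => ∑ n ∈ Finset.Icc 1 N, (rs (ext ε) ω n : ℂ) * e (n * x)) N x ∉ O) :=
  every_scale_of μ (fun ω N x => ∑ n ∈ Finset.Icc 1 N, (rs (ext ε) ω n : ℂ) * e (n * x))
    (fun ω N => continuous_finsetSum _ fun n _ => continuous_const.mul (by unfold e; fun_prop))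
    (fun δ r hδ hr0 hr1 => thick_upper μ ε hm hi h2 h1 δ r hδ hr0 hr1)
    (fun δ hδ => upper_as μ ε hm hi h2 h1 δ hδ)
    (fun κ δ z hκ hδ hz => arc_lower_of
      (fun κ δ z hκ hδ hz => arc_block_of arc_N κ δ z hκ hδ hz) slow μ ε hm hi h2 h1
      (fun d hd => upper_as μ ε hm hi h2 h1 d hd) κ δ z hκ hδ hz)
    (fun κ δ r hκ0 hκ1 hδ hr0 hr1 hr => arc_upper_of slow μ ε hm hi h2 h1
      (fun d hd => upper_as μ ε hm hi h2 h1 d hd) (fun d r hd hr0 hr1 => thick_upper μ ε hm hi h2 h1 d r hd hr0 hr1)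
      κ δ r hκ0 hκ1 hδ hr0 hr1 hr)

end Pool.Agent.Helper51.EA
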