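import Pool.Agent.Helper5.EA3.Final3
import Pool.Agent.Helper5.EA3.ArcN
import Pool.Agent.Helper54.EA.V3
import Pool.Agent.Helper33.EA.V2
import Pool.Agent.Helper33.EA.DivTwo
import Pool.Agent.Helper1.EA.V2b
import Pool.Agent.Helper63.EA3.V2a

/-!
# Project EA, part 3: the law at every scale, complete
-/

set_option autoImplicit false

namespace Pool.Agent.Helper51.EA

open Finset Pool.Agent.Helper5.RM Pool.Agent.Helper5.RS MeasureTheory ProbabilityTheory Filter Pool.Agent.Helper11.EA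
open Pool.Agent.Helper54.EA Pool.Agent.Helper33.EA Pool.Agent.Helper1.EA

/-- V9 -/
theorem arc_N (κ δ : ℝ) (z : ℂ) (hκ0 : 0 ≤ κ) (hδ : 0 < δ) (hz : ‖z‖ ^ 2 < 1 - κ) : ∃ (c : ℝ) (N0 : ℕ), 0 < c ∧ ∀ N : ℕ, N0 ≤ N →
    pr (PP N) (fun T => ∃ j0 : ℕ, j0 + mw N κ ≤ 4 * N ∧ (cw N (mw N κ) j0 (fun x => ‖SN N T x - z * (tg N : ℂ)‖ ≤ δ * tg N) : ℝ) <
      (N : ℝ) ^ (1 - κ - ‖z‖ ^ 2 - δ)) ≤ (N : ℝ) ^ (-c) :=
  arc_N_of5 (fl_two_of (psi_two_of psi_small (psi_large_of div_two33))) κ δ z hκ0 hδ hz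

/-- V13 -/
theorem every_scale {Ω : Type*} [MeasurableSpace Ω] (μ : Measure Ω) [IsProbabilityMeasure μ]
    (ε : Nat.Primes → Ω → ℝ) (hm : ∀ p, Measurable (ε p)) (hi : iIndepFun ε μ)
    (h2 : ∀ p, μ {ω | ε p ω = -1} = 1 / 2) (h1 : ∀ p, μ {ω | ε p ω = 1} = 1 / 2) :
    ∀ᵐ ω ∂μ, ∀ κ : ℝ, 0 ≤ κ → κ < 1 → ∀ O : Set ℂ, IsOpen O →
      ((∃ z ∈ O, ‖z‖ < Real.sqrt (1 - κ) * rd) → Tendsto (fun N : ℕ =>
        Real.log (⨅ a : ℝ, (volume {x : ℝ | a ≤ x ∧ x ≤ a + (N : ℝ) ^ (-κ) ∧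
          nrm (fun N x => ∑ n ∈ Finset.Icc 1 N, (rs (ext ε) ω n : ℂ) * e (n * x)) N x ∈ O}).toReal) / Real.log N)
        atTop (nhds (-κ - Real.pi ^ 2 / 6 * (Metric.infDist 0 O) ^ 2))) ∧
      (Real.sqrt (1 - κ) * rd < Metric.infDist 0 O → ∀ᶠ N : ℕ in atTop, ∃ a : ℝ, ∀ x : ℝ, a ≤ x → x ≤ a + (N : ℝ) ^ (-κ) →
        nrm (fun N x => ∑ n ∈ Finset.Icc 1 N, (rs (ext ε) ω n : ℂ) * e (n * x)) N x ∉ O) :=
  every_scale5_of arc_N μ ε hm hi h2 h1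

end Pool.Agent.Helper51.EA
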